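import Pool.Agent.Helper35.EAM.Spec3

/-!
# EAM3 part DIMH: comparison with the influence of the volumes in a hyperplane
-/

set_option autoImplicit false
set_option linter.all false

open MeasureTheory

namespace Pool.Agent.Helper57.EAM

open Pool.H47EA Pool.Agent.Helper35.EAM Pool.Agent.Helper35.EAM2 Pool.Agent.Helper35.EAM3
open Pool.Agent.Helper79K9.FS

theorem hyp_zero {d : ℕ} : hyp (0 : Site d) = (0 : Site (d + 1)) := by
  funext i
  refine Fin.cases ?_ (fun j => ?_) i
  · rfl
  · rfl

theorem dimh (hB : S_BASH) : S_DIMH := by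
  classical
  intro d n β hn
  obtain ⟨b1, b2, -, -, b5, -⟩ := hB (d + 1) (0 : Fin (d + 1)) β
  have hinj := emb_inj (hyp (d := d)) dist_hyp
  rw [← law_pull (hyp (d := d)) dist_hyp, integral_map (meas_pull hyp dist_hyp).aemeasurable
    (meas_infl hn β 0).aestronglyMeasurable]
  refine integral_mono ?_ (b5 n 0 hn).2 fun J' => ?_
  · exact Integrable.of_bound ((meas_infl hn β 0).comp
      (meas_pull hyp dist_hyp)).aestronglyMeasurable 1
      (ae_of_all _ fun J => by
        rw [Real.norm_eq_abs, abs_of_nonneg infl_nonneg]; exact infl_le_one)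
  · obtain ⟨ζ, hζ'⟩ := exists_zeta J'
    have hζ : ∀ x, ∑ y ∈ (nbr (hyp x)).filter (fun y => y ∉ Set.range (hyp (d := d))),
        Jc J' (hyp x) y * sg (ζ y) = 0 := fun x => by convert! hζ' x
    refine infl_le fun L ω ω' hx h => ?_
    have key : ∀ τ : Site d → Bool, gE β (pull hyp dist_hyp J') L τ (ind 0) =
        gE β J' (L.image hyp) (Function.extend hyp τ ζ) (ind (hyp 0)) := by
      intro τ
      rw [gE_pull hyp dist_hyp β J' L 0]
      · congr 1
        funext z
        rw [hinj.extend_apply]
      · intro y hy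
        rw [← hζ y]
        refine Finset.sum_congr rfl fun z hz => ?_
        rw [Function.extend_apply' _ _ _ (fun ⟨a, ha⟩ => (Finset.mem_filter.1 hz).2 ⟨a, ha⟩)]
    rw [key, key, hyp_zero]
    refine b1 J' n 0 _ _ _ ?_ ?_ ?_
    · rw [← hyp_zero]
      exact Finset.mem_image_of_mem hyp hx
    · intro y hy
      obtain ⟨z, -, rfl⟩ := Finset.mem_image.1 hy
      rfl
    · intro y hy hd
      by_cases hr : ∃ z, hyp z = y
      · obtain ⟨z, rfl⟩ := hr
        rw [hinj.extend_apply, hinj.extend_apply]
        refine h z (fun hz => hy (Finset.mem_image_of_mem hyp hz)) ?_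
        rwa [← hyp_zero, dist_hyp] at hd
      · rw [Function.extend_apply' _ _ _ hr, Function.extend_apply' _ _ _ hr]

end Pool.Agent.Helper57.EAM
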